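import Mathlib

set_option autoImplicit false

open Set

namespace Pool.Agent.Results.MP_22e672_co.CubeCounterexample

/-- `P` is a `d`-dimensional convex polytope in `ℝ^d`: the convex hull of finitely many points,
with nonempty interior. -/
def IsPolytope {d : ℕ} (P : Set (Fin d → ℝ)) : Prop :=
  (∃ V : Set (Fin d → ℝ), V.Finite ∧ P = convexHull ℝ V) ∧ (interior P).Nonempty

/-- `F` is a face of `P`: either `P` itself or the intersection of `P` with a supporting
hyperplane `{l = c}` (so `l ≤ c` on `P`, with equality somewhere on `P`). -/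
def IsFace {d : ℕ} (P F : Set (Fin d → ℝ)) : Prop :=
  F = P ∨ ∃ (l : (Fin d → ℝ) →ₗ[ℝ] ℝ) (c : ℝ), l ≠ 0 ∧ (∀ x ∈ P, l x ≤ c) ∧
    (∃ x ∈ P, l x = c) ∧ F = {x | x ∈ P ∧ l x = c}

/-- The set of boundary points of `P` that lie in no `i`-dimensional face of `P`. -/
def offFaces {d : ℕ} (P : Set (Fin d → ℝ)) (i : ℕ) : Set (Fin d → ℝ) :=
  {b | b ∈ frontier P ∧
    ∀ F, IsFace P F → Module.finrank ℝ (vectorSpan ℝ F) = i → b ∉ F}

/-- The point `b` is illuminated by the source `s`: the ray starting at `s` and passing through `b`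
meets the interior of `P`, and the segment `[s, b]` contains no point of `P` other than `b`. -/
def Illuminates {d : ℕ} (P : Set (Fin d → ℝ)) (s b : Fin d → ℝ) : Prop :=
  (∃ t : ℝ, 0 ≤ t ∧ s + t • (b - s) ∈ interior P) ∧ segment ℝ s b ∩ P = {b}

/-- The unit cube in `ℝ^d`. -/
def cube (d : ℕ) : Set (Fin d → ℝ) := Set.pi Set.univ (fun _ => Icc (0 : ℝ) 1)

theorem interior_cube (d : ℕ) : interior (cube d) = Set.pi Set.univ (fun _ => Ioo (0 : ℝ) 1) := by
  unfold cube
  rw [interior_pi_set Set.finite_univ]
  simp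

theorem cube_isPolytope (d : ℕ) : IsPolytope (cube d) := by
  refine ⟨⟨Set.pi Set.univ (fun _ => {0, 1}), ?_, ?_⟩, ?_⟩
  · exact Set.Finite.pi (fun _ => (Set.finite_singleton (1 : ℝ)).insert 0)
  · rw [convexHull_pi]
    unfold cube
    congr 1
    funext i
    rw [convexHull_pair, segment_eq_Icc zero_le_one]
  · rw [interior_cube]
    exact ⟨fun _ => 1 / 2, fun i _ => by norm_num⟩

/-- A source that illuminates a point of the cube is strictly beyond each facet containing it. -/
theorem beyond {d : ℕ} {s b : Fin d → ℝ} (h : Illuminates (cube d) s b) (j : Fin d) :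
    (b j = 1 → 1 < s j) ∧ (b j = 0 → s j < 0) := by
  obtain ⟨⟨t, ht, hint⟩, hseg⟩ := h
  have hbP : b ∈ cube d := by
    have : b ∈ segment ℝ s b ∩ cube d := by rw [hseg]; rfl
    exact this.2
  rw [interior_cube] at hint
  have hj := hint j (mem_univ j)
  simp only [Pi.add_apply, Pi.smul_apply, Pi.sub_apply, smul_eq_mul, mem_Ioo] at hj
  have hkey : (b j = 1 ∨ b j = 0) → 1 < t := by
    intro hbj
    by_contra hle
    push Not at hle
    have hq : s + t • (b - s) ∈ segment ℝ s b ∩ cube d := by
      constructor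
      · rw [segment_eq_image']
        exact ⟨t, ⟨ht, hle⟩, rfl⟩
      · intro i _
        have := hint i (mem_univ i)
        exact ⟨this.1.le, this.2.le⟩
    rw [hseg] at hq
    have h1 : s j + t * (b j - s j) = b j := by
      have := congrFun (mem_singleton_iff.1 hq) j
      simpa using this
    rcases hbj with hbj | hbj
    · rw [h1, hbj] at hj; exact absurd hj.2 (lt_irrefl _)
    · rw [h1, hbj] at hj; exact absurd hj.1 (lt_irrefl _)
  constructor
  · intro hbj
    have ht1 := hkey (Or.inl hbj)
    rw [hbj] at hj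
    by_contra hle
    push Not at hle
    nlinarith [hj.2]
  · intro hbj
    have ht1 := hkey (Or.inr hbj)
    rw [hbj] at hj
    by_contra hle
    push Not at hle
    nlinarith [hj.1]

/-- Points of the cube whose coordinates are `0` or `1` on `J` and `1/2` outside `J`. -/
noncomputable def pt {d : ℕ} (J : Finset (Fin d)) (σ : Fin d → Bool) : Fin d → ℝ :=
  fun j => if j ∈ J then (if σ j then 1 else 0) else 1 / 2

theorem pt_mem_cube {d : ℕ} (J : Finset (Fin d)) (σ : Fin d → Bool) : pt J σ ∈ cube d := by
  intro j _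
  simp only [pt, mem_Icc]
  split_ifs <;> norm_num

theorem pt_mem_offFaces {d i : ℕ} (J : Finset (Fin d)) (σ : Fin d → Bool) (hJ : J.Nonempty)
    (hcard : J.card + i < d) : pt J σ ∈ offFaces (cube d) i := by
  constructor
  · -- boundary point
    rw [frontier, mem_sdiff]
    refine ⟨subset_closure (pt_mem_cube J σ), ?_⟩
    rw [interior_cube]
    intro h
    obtain ⟨j, hj⟩ := hJ
    have := h j (mem_univ j)
    simp only [pt, if_pos hj, mem_Ioo] at this
    rcases hσ : σ j with _ | _ <;> simp [hσ] at this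
  · intro F hF hdim hb
    -- `F` contains the points `pt J σ ± e_k / 2` for `k ∉ J`
    have hmem : ∀ k, k ∉ J → ∀ ε : ℝ, |ε| ≤ 1 / 2 → pt J σ + Pi.single k ε ∈ cube d := by
      intro k hk ε hε j _
      rw [abs_le] at hε
      by_cases hjk : j = k
      · subst hjk
        simp only [Pi.add_apply, Pi.single_eq_same, pt, if_neg hk, mem_Icc]
        constructor <;> linarith [hε.1, hε.2]
      · simp only [Pi.add_apply, Pi.single_eq_of_ne hjk, add_zero]
        exact pt_mem_cube J σ j (mem_univ j)
    have hF' : ∀ k, k ∉ J → pt J σ + Pi.single k (1 / 2) ∈ F := by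
      intro k hk
      rcases hF with rfl | ⟨l, c, -, hle, -, rfl⟩
      · exact hmem k hk _ (by norm_num [abs_of_pos])
      · refine ⟨hmem k hk _ (by norm_num [abs_of_pos]), ?_⟩
        have h1 := hle _ (hmem k hk (1 / 2) (by norm_num [abs_of_pos]))
        have h2 := hle _ (hmem k hk (-(1 / 2)) (by norm_num [abs_of_pos]))
        have h3 : l (pt J σ) = c := hb.2
        have h4 : (Pi.single k (-(1 / 2)) : Fin d → ℝ) = -Pi.single k (1 / 2) := by
          rw [Pi.single_neg]
        rw [h4] at h2
        rw [map_add] at h1 h2 ⊢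
        rw [map_neg] at h2
        linarith
    have hvec : ∀ k, k ∉ J → (Pi.single k 1 : Fin d → ℝ) ∈ vectorSpan ℝ F := by
      intro k hk
      have h1 : (pt J σ + Pi.single k (1 / 2)) -ᵥ pt J σ ∈ vectorSpan ℝ F :=
        vsub_mem_vectorSpan ℝ (hF' k hk) hb
      have h2 : (Pi.single k 1 : Fin d → ℝ) = (2 : ℝ) • ((pt J σ + Pi.single k (1 / 2)) -ᵥ pt J σ) := by
        rw [vsub_eq_sub, add_sub_cancel_left]
        rw [← Pi.single_smul]
        norm_num
      rw [h2]
      exact Submodule.smul_mem _ _ h1
    have hli : LinearIndependent ℝ (fun k : {k : Fin d // k ∉ J} => (Pi.single k.1 1 : Fin d → ℝ)) := by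
      have := (Pi.basisFun ℝ (Fin d)).linearIndependent.comp (fun k : {k : Fin d // k ∉ J} => k.1)
        Subtype.val_injective
      convert this using 1
      funext k
      simp
    have hle : Submodule.span ℝ (Set.range (fun k : {k : Fin d // k ∉ J} =>
        (Pi.single k.1 1 : Fin d → ℝ))) ≤ vectorSpan ℝ F := by
      rw [Submodule.span_le]
      rintro _ ⟨k, rfl⟩
      exact hvec k.1 k.2
    have h1 := Submodule.finrank_mono hle
    rw [finrank_span_eq_card hli, hdim, Fintype.card_subtype_compl, Fintype.card_fin] at h1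
    simp only [Fintype.card_coe] at h1
    omega

/-- There is no binary covering array of strength `τ + 2` with at least `τ + 4` columns and at most
`2 ^ (τ + 2)` rows. -/
theorem no_array {d τ : ℕ} (hd : τ + 4 ≤ d) {ι : Type} [Fintype ι] (p : ι → Fin d → Bool)
    (hι : Fintype.card ι ≤ 2 ^ (τ + 2))
    (hcov : ∀ J : Finset (Fin d), J.card = τ + 2 → ∀ σ : Fin d → Bool,
      ∃ s : ι, ∀ j ∈ J, p s j = σ j) : False := by
  classical
  -- rows agreeing on `τ + 2` columns are equal
  have hinj : ∀ J : Finset (Fin d), J.card = τ + 2 → ∀ s s' : ι, (∀ j ∈ J, p s j = p s' j) →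
      s = s' := by
    intro J hJ
    let φ : ι → (J → Bool) := fun s j => p s j.1
    have hsurj : Function.Surjective φ := by
      intro g
      obtain ⟨s, hs⟩ := hcov J hJ (fun j => if h : j ∈ J then g ⟨j, h⟩ else false)
      refine ⟨s, ?_⟩
      funext j
      have := hs j.1 j.2
      simpa [φ] using this
    have hcardφ : Fintype.card (J → Bool) = 2 ^ (τ + 2) := by
      simp [hJ]
    have hbij : Function.Bijective φ := by
      rw [Fintype.bijective_iff_surjective_and_card]
      refine ⟨hsurj, le_antisymm (by rw [hcardφ]; exact hι) ?_⟩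
      exact Fintype.card_le_of_surjective φ hsurj
    intro s s' h
    apply hbij.1
    funext j
    exact h j.1 j.2
  -- flipping a row outside a set of `τ + 1` columns
  obtain ⟨J0, -, hJ0⟩ := Finset.exists_subset_card_eq
    (s := (Finset.univ : Finset (Fin d))) (n := τ + 2) (by simp; omega)
  obtain ⟨s0, -⟩ := hcov J0 hJ0 (fun _ => false)
  have hflip : ∀ A : Finset (Fin d), A.card = τ + 1 →
      ∃ s : ι, (∀ j ∈ A, p s j = p s0 j) ∧ ∀ j, j ∉ A → p s j = !(p s0 j) := by
    intro A hA
    have hex : ∃ c, c ∉ A := by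
      by_contra hcon
      push Not at hcon
      have : A = Finset.univ := Finset.eq_univ_iff_forall.2 hcon
      rw [this] at hA
      simp at hA
      omega
    obtain ⟨c, hc⟩ := hex
    obtain ⟨s, hs⟩ := hcov (insert c A) (by rw [Finset.card_insert_of_notMem hc, hA])
      (fun j => if j = c then !(p s0 c) else p s0 j)
    have hsA : ∀ j ∈ A, p s j = p s0 j := by
      intro j hj
      have := hs j (Finset.mem_insert_of_mem hj)
      have hjc : j ≠ c := by
        rintro rfl
        exact hc hj
      rwa [if_neg hjc] at this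
    have hsc : p s c = !(p s0 c) := by
      have := hs c (Finset.mem_insert_self _ _)
      rwa [if_pos rfl] at this
    refine ⟨s, hsA, ?_⟩
    intro j hj
    by_contra hne
    have heq : p s j = p s0 j := by
      cases h1 : p s j <;> cases h2 : p s0 j <;> simp_all
    have := hinj (insert j A) (by rw [Finset.card_insert_of_notMem hj, hA]) s s0 (by
      intro k hk
      rcases Finset.mem_insert.1 hk with rfl | hk
      · exact heq
      · exact hsA k hk)
    rw [this] at hsc
    cases h : p s0 c <;> simp [h] at hsc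
  -- the columns `0, 1, 2, 3` and `C = {4, ..., τ + 3}`
  let g : Fin τ ↪ Fin d := ⟨fun k => ⟨k.1 + 4, by omega⟩, fun a b h => by
    simp only [Fin.mk.injEq] at h
    exact Fin.ext (by omega)⟩
  let C : Finset (Fin d) := Finset.univ.map g
  have hCcard : C.card = τ := by simp [C]
  have hCmem : ∀ j ∈ C, 4 ≤ j.1 := by
    intro j hj
    simp only [C, Finset.mem_map, Finset.mem_univ, true_and] at hj
    obtain ⟨k, rfl⟩ := hj
    change 4 ≤ k.1 + 4
    omega
  let x : Fin d := ⟨0, by omega⟩
  let y : Fin d := ⟨1, by omega⟩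
  let u : Fin d := ⟨2, by omega⟩
  let v : Fin d := ⟨3, by omega⟩
  have hxC : x ∉ C := fun h => by have := hCmem _ h; simp [x] at this
  have hyC : y ∉ C := fun h => by have := hCmem _ h; simp [y] at this
  have huC : u ∉ C := fun h => by have := hCmem _ h; simp [u] at this
  have hvC : v ∉ C := fun h => by have := hCmem _ h; simp [v] at this
  have hxy : x ≠ y := by simp [x, y]
  have hxu : x ≠ u := by simp [x, u]
  have hxv : x ≠ v := by simp [x, v]
  have hyu : y ≠ u := by simp [y, u]
  have hyv : y ≠ v := by simp [y, v]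
  have huv : u ≠ v := by simp [u, v]
  obtain ⟨sA, hA1, hA2⟩ := hflip (insert x C) (by rw [Finset.card_insert_of_notMem hxC, hCcard])
  obtain ⟨sB, hB1, hB2⟩ := hflip (insert y C) (by rw [Finset.card_insert_of_notMem hyC, hCcard])
  have hAB : sA = sB := by
    apply hinj (insert u (insert v C))
    · rw [Finset.card_insert_of_notMem, Finset.card_insert_of_notMem hvC, hCcard]
      simp [huC, huv]
    · intro j hj
      simp only [Finset.mem_insert] at hj
      rcases hj with rfl | rfl | hj
      · rw [hA2 _ (by simp [huC, hxu.symm]), hB2 _ (by simp [huC, hyu.symm])]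
      · rw [hA2 _ (by simp [hvC, hxv.symm]), hB2 _ (by simp [hvC, hyv.symm])]
      · rw [hA1 _ (by simp [hj]), hB1 _ (by simp [hj])]
  have h1 := hA1 x (by simp)
  have h2 := hB2 x (by simp [hxC, hxy])
  rw [hAB, h2] at h1
  cases h : p s0 x <;> simp [h] at h1

/-- For all `d` and `i` with `1 ≤ i ≤ d - 3` there is a `d`-dimensional convex polytope (the
`d`-cube) such that the boundary points lying in no `i`-dimensional face cannot be illuminated by
`2 ^ (d - 1 - i)` sources lying outside it. -/
theorem result : ∀ d i : ℕ, 1 ≤ i → i + 3 ≤ d →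
    ∃ P : Set (Fin d → ℝ), IsPolytope P ∧
      ¬ ∃ S : Finset (Fin d → ℝ), S.card ≤ 2 ^ (d - 1 - i) ∧ (∀ s ∈ S, s ∉ P) ∧
        ∀ b ∈ offFaces P i, ∃ s ∈ S, Illuminates P s b := by
  intro d i hi hd
  refine ⟨cube d, cube_isPolytope d, ?_⟩
  rintro ⟨S, hcard, -, hill⟩
  obtain ⟨τ, hτ⟩ : ∃ τ, d = i + τ + 3 := ⟨d - i - 3, by omega⟩
  apply no_array (d := d) (τ := τ) (by omega) (ι := S)
    (fun s j => decide (1 < s.1 j))
  · rw [Fintype.card_coe]
    have : d - 1 - i = τ + 2 := by omega
    rwa [this] at hcard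
  · intro J hJ σ
    obtain ⟨s, hs, hsb⟩ := hill (pt J σ) (pt_mem_offFaces J σ
      (Finset.card_pos.1 (by omega)) (by omega))
    refine ⟨⟨s, hs⟩, ?_⟩
    intro j hj
    obtain ⟨h1, h2⟩ := beyond hsb j
    rcases hσ : σ j with _ | _
    · have := h2 (by simp [pt, hj, hσ])
      simp only [decide_eq_false_iff_not, not_lt]
      linarith
    · have := h1 (by simp [pt, hj, hσ])
      simpa using this

end Pool.Agent.Results.MP_22e672_co.CubeCounterexample
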